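import Pool.Agent.Lib.MP_a60258_pr.Main

/-!
# The sixth cumulant is positive on the decoupled part of every Wiener chaos

The coordinates `ω 0, ω 1, …` are independent standard Gaussians.  They are coloured with `p ≥ 2`
colours.  `X` is a non-zero `L²`-limit of linear combinations of products
`ω (i 0) * ⋯ * ω (i (p - 1))`, where `i j` has the colour `j` (so `X` is an element of the `p`-th
Wiener chaos whose kernel is the symmetrisation of an element of `H₀ ⊗ ⋯ ⊗ H_(p-1)` with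
pairwise orthogonal `H_j`).  Then the sixth cumulant of `X` is positive.
-/

open MeasureTheory ProbabilityTheory

namespace Pool.Agent.Results.MP_a60258_pr.Decoupled

theorem result (p : ℕ) (hp : 2 ≤ p) (c : ℕ → Fin p) (X : (ℕ → ℝ) → ℝ)
    (hX : MemLp X 2 (Measure.infinitePi (fun _ : ℕ => gaussianReal 0 1)))
    (happ : ∀ ε : ℝ, 0 < ε → ∃ (s : Finset (Fin p → ℕ)) (a : (Fin p → ℕ) → ℝ),
      (∀ i ∈ s, ∀ j, c (i j) = j) ∧
      ∫ ω, (X ω - ∑ i ∈ s, a i * ∏ j, ω (i j)) ^ 2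
        ∂(Measure.infinitePi (fun _ : ℕ => gaussianReal 0 1)) < ε)
    (hne : ¬ (∀ᵐ ω ∂(Measure.infinitePi (fun _ : ℕ => gaussianReal 0 1)), X ω = 0)) :
    0 < (∫ ω, X ω ^ 6 ∂(Measure.infinitePi (fun _ : ℕ => gaussianReal 0 1)))
      - 15 * (∫ ω, X ω ^ 2 ∂(Measure.infinitePi (fun _ : ℕ => gaussianReal 0 1)))
          * (∫ ω, X ω ^ 4 ∂(Measure.infinitePi (fun _ : ℕ => gaussianReal 0 1)))
      - 10 * (∫ ω, X ω ^ 3 ∂(Measure.infinitePi (fun _ : ℕ => gaussianReal 0 1))) ^ 2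
      + 30 * (∫ ω, X ω ^ 2 ∂(Measure.infinitePi (fun _ : ℕ => gaussianReal 0 1))) ^ 3 := by
  obtain ⟨n, rfl⟩ : ∃ n, p = n + 2 := ⟨p - 2, by omega⟩
  exact A602.main n c X hX happ hne

end Pool.Agent.Results.MP_a60258_pr.Decoupled
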