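import Pool.Agent.Lib.MP_a60258_hol.H9.Final

/-!
# The sixth cumulant is positive on the holomorphic part of every Wiener chaos

The coordinates `ω 0, ω 1, …` are independent standard Gaussians, and
`ζ j = ω (2 j) + i ω (2 j + 1)`.  `X` is a non-zero `L²`-limit of real parts of complex
homogeneous polynomials of degree `p ≥ 2` in `ζ 0, ζ 1, …` (such a real part is an element of the
`p`-th Wiener chaos).  Then the sixth cumulant of `X` is positive, and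
`3 κ₂ κ₆ ≥ 10 κ₄²`.
-/

open MeasureTheory ProbabilityTheory

namespace Pool.Agent.Results.MP_a60258_pr.Holomorphic

theorem result (p : ℕ) (hp : 2 ≤ p) (X : (ℕ → ℝ) → ℝ)
    (hX : MemLp X 2 (Measure.infinitePi (fun _ : ℕ => gaussianReal 0 1)))
    (happ : ∀ ε : ℝ, 0 < ε → ∃ (s : Finset (ℕ →₀ ℕ)) (c : (ℕ →₀ ℕ) → ℂ),
      (∀ α ∈ s, (α.sum fun _ k => k) = p) ∧
      ∫ ω, (X ω - (∑ α ∈ s, c α * α.prod (fun j k =>
          ((ω (2 * j) : ℂ) + (ω (2 * j + 1) : ℂ) * Complex.I) ^ k)).re) ^ 2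
        ∂(Measure.infinitePi (fun _ : ℕ => gaussianReal 0 1)) < ε)
    (hne : ¬ (∀ᵐ ω ∂(Measure.infinitePi (fun _ : ℕ => gaussianReal 0 1)), X ω = 0)) :
    0 < (∫ ω, X ω ^ 6 ∂(Measure.infinitePi (fun _ : ℕ => gaussianReal 0 1)))
      - 15 * (∫ ω, X ω ^ 2 ∂(Measure.infinitePi (fun _ : ℕ => gaussianReal 0 1)))
          * (∫ ω, X ω ^ 4 ∂(Measure.infinitePi (fun _ : ℕ => gaussianReal 0 1)))
      - 10 * (∫ ω, X ω ^ 3 ∂(Measure.infinitePi (fun _ : ℕ => gaussianReal 0 1))) ^ 2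
      + 30 * (∫ ω, X ω ^ 2 ∂(Measure.infinitePi (fun _ : ℕ => gaussianReal 0 1))) ^ 3 ∧
    10 * ((∫ ω, X ω ^ 4 ∂(Measure.infinitePi (fun _ : ℕ => gaussianReal 0 1)))
        - 3 * (∫ ω, X ω ^ 2 ∂(Measure.infinitePi (fun _ : ℕ => gaussianReal 0 1))) ^ 2) ^ 2
      ≤ 3 * (((∫ ω, X ω ^ 6 ∂(Measure.infinitePi (fun _ : ℕ => gaussianReal 0 1)))
      - 15 * (∫ ω, X ω ^ 2 ∂(Measure.infinitePi (fun _ : ℕ => gaussianReal 0 1)))
          * (∫ ω, X ω ^ 4 ∂(Measure.infinitePi (fun _ : ℕ => gaussianReal 0 1)))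
      - 10 * (∫ ω, X ω ^ 3 ∂(Measure.infinitePi (fun _ : ℕ => gaussianReal 0 1))) ^ 2
      + 30 * (∫ ω, X ω ^ 2 ∂(Measure.infinitePi (fun _ : ℕ => gaussianReal 0 1))) ^ 3)
        * ∫ ω, X ω ^ 2 ∂(Measure.infinitePi (fun _ : ℕ => gaussianReal 0 1))) :=
  Pool.Agent.Hol.H9.main p hp X hX happ hne

end Pool.Agent.Results.MP_a60258_pr.Holomorphic
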