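import Pool.Agent.Lib.MP_a60258_low.Main

/-!
# The sixth cumulant is positive in dimension less than `2 p (p - 1)`

`X` is a non-zero linear combination of products of Hermite polynomials of total degree `p` in `d`
independent standard Gaussians, that is, a non-zero element of the `p`-th Wiener chaos over a
Gaussian space of dimension `d`.  If `3 ≤ p` and `d < 2 p (p - 1)`, then the sixth cumulant of `X`
is positive, with an explicit lower bound.
-/

open MeasureTheory ProbabilityTheory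

namespace Pool.Agent.Results.MP_a60258_pr.LowDimension

theorem result (p d : ℕ) (hp : 3 ≤ p) (hd : d < 2 * p * (p - 1))
    (s : Finset (ℕ →₀ ℕ)) (c : (ℕ →₀ ℕ) → ℝ)
    (hs : ∀ α ∈ s, (α.sum fun _ k => k) = p ∧ ∀ i ∈ α.support, i < d)
    (X : (ℕ → ℝ) → ℝ)
    (hX : ∀ ω, X ω = ∑ α ∈ s, c α *
      α.prod (fun i k => Polynomial.aeval (ω i) (Polynomial.hermite k)))
    (hne : ¬ (∀ᵐ ω ∂(Measure.infinitePi (fun _ : ℕ => gaussianReal 0 1)), X ω = 0)) :
    0 < (∫ ω, X ω ^ 6 ∂(Measure.infinitePi (fun _ : ℕ => gaussianReal 0 1)))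
      - 15 * (∫ ω, X ω ^ 2 ∂(Measure.infinitePi (fun _ : ℕ => gaussianReal 0 1)))
          * (∫ ω, X ω ^ 4 ∂(Measure.infinitePi (fun _ : ℕ => gaussianReal 0 1)))
      - 10 * (∫ ω, X ω ^ 3 ∂(Measure.infinitePi (fun _ : ℕ => gaussianReal 0 1))) ^ 2
      + 30 * (∫ ω, X ω ^ 2 ∂(Measure.infinitePi (fun _ : ℕ => gaussianReal 0 1))) ^ 3 ∧
    30 * (p : ℝ) * ((p : ℝ) - 1) * (2 * (p : ℝ) * ((p : ℝ) - 1) - d)
        * (∫ ω, X ω ^ 2 ∂(Measure.infinitePi (fun _ : ℕ => gaussianReal 0 1))) ^ 3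
      ≤ (d : ℝ) ^ 2 * ((∫ ω, X ω ^ 6 ∂(Measure.infinitePi (fun _ : ℕ => gaussianReal 0 1)))
      - 15 * (∫ ω, X ω ^ 2 ∂(Measure.infinitePi (fun _ : ℕ => gaussianReal 0 1)))
          * (∫ ω, X ω ^ 4 ∂(Measure.infinitePi (fun _ : ℕ => gaussianReal 0 1)))
      - 10 * (∫ ω, X ω ^ 3 ∂(Measure.infinitePi (fun _ : ℕ => gaussianReal 0 1))) ^ 2
      + 30 * (∫ ω, X ω ^ 2 ∂(Measure.infinitePi (fun _ : ℕ => gaussianReal 0 1))) ^ 3) :=
  A602.Low.low_dimension p d hp hd s c hs X hX hne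

end Pool.Agent.Results.MP_a60258_pr.LowDimension
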