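import Pool.Agent.Lib.MP_a60258_c3.Limit
import Pool.Agent.Lib.MP_a60258_s6.Main

/-!
# The sixth cumulant is positive on the Wiener chaos of order `3, ..., 10`

The coordinates `ω 0, ω 1, …` are independent standard Gaussians and `X` is a non-zero `L²`-limit
of linear combinations of products of Hermite polynomials of total degree `p`, that is, a non-zero
element of the `p`-th Wiener chaos.  If `3 ≤ p ≤ 10` then the sixth cumulant of `X` is positive.
-/

open MeasureTheory ProbabilityTheory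

namespace Pool.Agent.Results.MP_a60258_pr.OrdersThreeToTen

theorem result (p : ℕ) (h3 : 3 ≤ p) (h10 : p ≤ 10) (X : (ℕ → ℝ) → ℝ)
    (hX : MemLp X 2 (Measure.infinitePi (fun _ : ℕ => gaussianReal 0 1)))
    (happ : ∀ ε : ℝ, 0 < ε → ∃ (s : Finset (ℕ →₀ ℕ)) (c : (ℕ →₀ ℕ) → ℝ),
      (∀ α ∈ s, (α.sum fun _ k => k) = p) ∧
      ∫ ω, (X ω - ∑ α ∈ s, c α *
          α.prod (fun i k => Polynomial.aeval (ω i) (Polynomial.hermite k))) ^ 2
        ∂(Measure.infinitePi (fun _ : ℕ => gaussianReal 0 1)) < ε)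
    (hne : ¬ (∀ᵐ ω ∂(Measure.infinitePi (fun _ : ℕ => gaussianReal 0 1)), X ω = 0)) :
    0 < (∫ ω, X ω ^ 6 ∂(Measure.infinitePi (fun _ : ℕ => gaussianReal 0 1)))
      - 15 * (∫ ω, X ω ^ 2 ∂(Measure.infinitePi (fun _ : ℕ => gaussianReal 0 1)))
          * (∫ ω, X ω ^ 4 ∂(Measure.infinitePi (fun _ : ℕ => gaussianReal 0 1)))
      - 10 * (∫ ω, X ω ^ 3 ∂(Measure.infinitePi (fun _ : ℕ => gaussianReal 0 1))) ^ 2
      + 30 * (∫ ω, X ω ^ 2 ∂(Measure.infinitePi (fun _ : ℕ => gaussianReal 0 1))) ^ 3 := by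
  obtain ⟨c0, hc0, h⟩ := A602.S6.main_ten p h3 h10
  exact A602.main_cha p (by omega) c0 hc0 h X hX happ hne

end Pool.Agent.Results.MP_a60258_pr.OrdersThreeToTen
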